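import Mathlib
import Pool.Agent.N753.DR.Stm6

/-!
# PC/NEAR: common zeros modulo a prime and a resultant

The resultant of the generic polynomial `f` of degree `r` and `F` is the determinant of `f(A)`, where
`A` is a matrix with characteristic polynomial `F / lc(F)`.
-/

set_option autoImplicit false

namespace Pool.Agent.N79.PC

open NumberField IsDedekindDomain Module Polynomial Pool.Agent.N753.DR

section

variable {S T : Type*} [CommRing S] [CommRing T] {m : Type*} [Fintype m] [DecidableEq m] {r : ℕ}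

/-- the matrix `∑ c_i n ^ (r - i) A ^ i` -/
noncomputable def PP (c : Fin (r + 1) → S) (n : S) (A : Matrix m m S) : Matrix m m S :=
  ∑ i : Fin (r + 1), (c i * n ^ (r - (i : ℕ))) • A ^ (i : ℕ)

theorem PP_map (φ : S →+* T) (c : Fin (r + 1) → S) (n : S) (A : Matrix m m S) :
    φ.mapMatrix (PP c n A) = PP (fun i => φ (c i)) (φ n) (φ.mapMatrix A) := by
  unfold PP
  rw [map_sum]
  refine Finset.sum_congr rfl fun i _ => ?_
  have h : ∀ (a : S) (B : Matrix m m S), φ.mapMatrix (a • B) = φ a • φ.mapMatrix B := by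
    intro a B
    ext i j
    simp
  rw [h, map_pow, map_mul, map_pow]

theorem det_PP_map (φ : S →+* T) (c : Fin (r + 1) → S) (n : S) (A : Matrix m m S) :
    φ (PP c n A).det = (PP (fun i => φ (c i)) (φ n) (φ.mapMatrix A)).det := by
  rw [RingHom.map_det, PP_map]

theorem PP_dvd (c : Fin (r + 1) → S) (n x : S) (A : Matrix m m S)
    (h : ∑ i : Fin (r + 1), c i * n ^ (r - (i : ℕ)) * x ^ (i : ℕ) = 0) :
    (Matrix.scalar m x - A).det ∣ (PP c n A).det := by
  set q : S[X] := ∑ i : Fin (r + 1), C (c i * n ^ (r - (i : ℕ))) * X ^ (i : ℕ) with hq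
  have h1 : aeval A q = PP c n A := by
    rw [hq, map_sum]
    unfold PP
    refine Finset.sum_congr rfl fun i _ => ?_
    rw [map_mul, aeval_C, map_pow, aeval_X, Algebra.smul_def]
  have h2 : q.IsRoot x := by
    rw [IsRoot.def, hq, eval_finsetSum]
    simpa using h
  obtain ⟨q', hq'⟩ := dvd_iff_isRoot.2 h2
  have h3 : aeval A (X - C x) = -(Matrix.scalar m x - A) := by
    rw [map_sub, aeval_X, aeval_C, neg_sub]
    rfl
  rw [← h1, hq', map_mul, h3, Matrix.det_mul, Matrix.det_neg]
  exact Dvd.intro_left ((-1) ^ Fintype.card m * (aeval A q').det) (by ring)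

end

section

variable {K L : Type} [Field K] [Field L] [NumberField L] [Algebra K L]

theorem val_int (w : HeightOneSpectrum (𝓞 L)) (z : 𝓞 K) :
    w.valuation L (algebraMap (𝓞 K) L z) ≤ 1 := by
  have : algebraMap (𝓞 K) L z = algebraMap (𝓞 L) L (algebraMap (𝓞 K) (𝓞 L) z) := by
    rw [← IsScalarTower.algebraMap_apply]
  rw [this]
  exact w.valuation_le_one _

end

theorem t : StmNear := by
  intro K _ _ r hr F hF
  classical
  set pb := AdjoinRoot.powerBasis hF with hpb
  set A : Matrix (Fin pb.dim) (Fin pb.dim) K := Algebra.leftMulMatrix pb.basis pb.gen with hA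
  have hchar : A.charpoly = F * C F.leadingCoeff⁻¹ := by
    rw [hA, charpoly_leftMulMatrix, hpb, AdjoinRoot.powerBasis_gen, AdjoinRoot.minpoly_root hF]
  have hQ : Algebra.IsAlgebraic ℚ K := inferInstance
  have hZ : Algebra.IsAlgebraic ℤ K :=
    (IsFractionRing.comap_isAlgebraic_iff (A := ℤ) (K := ℚ) (C := K)).2 hQ
  obtain ⟨y, hy0, hy⟩ := Algebra.IsAlgebraic.exists_integral_multiples ℤ
    ((Finset.univ.image fun ij : Fin pb.dim × Fin pb.dim => A ij.1 ij.2) ∪ {F.leadingCoeff⁻¹})
  have hyA : ∀ i j, IsIntegral ℤ (y • A i j) := fun i j => hy _ (by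
    rw [Finset.mem_union]
    exact Or.inl (Finset.mem_image.2 ⟨(i, j), Finset.mem_univ _, rfl⟩))
  have hyl : IsIntegral ℤ (y • F.leadingCoeff⁻¹) := hy _ (by simp)
  set A' : Matrix (Fin pb.dim) (Fin pb.dim) (𝓞 K) := fun i j => ⟨y • A i j, hyA i j⟩ with hA'
  set u : 𝓞 K := ⟨y • F.leadingCoeff⁻¹, hyl⟩ with hu
  set n : 𝓞 K := (y : 𝓞 K) with hn
  set G : MvPolynomial (Fin (r + 1)) (𝓞 K) :=
    (PP (fun i : Fin (r + 1) => (MvPolynomial.X i : MvPolynomial (Fin (r + 1)) (𝓞 K)))
      (MvPolynomial.C n) ((MvPolynomial.C).mapMatrix A')).det with hG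
  have hev : ∀ c : Fin (r + 1) → 𝓞 K, MvPolynomial.eval c G = (PP c n A').det := by
    intro c
    rw [hG, det_PP_map]
    simp only [MvPolynomial.eval_X, MvPolynomial.eval_C]
    congr 2
    ext i j
    simp
  have hn0 : n ≠ 0 := by
    rw [hn]
    exact_mod_cast hy0
  refine ⟨G, y.natAbs, ?_, by simpa using hy0, ?_⟩
  · intro h0
    have h1 := hev (fun i => if i = 0 then 1 else 0)
    rw [h0, map_zero] at h1
    have h2 : PP (fun i : Fin (r + 1) => if i = 0 then (1 : 𝓞 K) else 0) n A'
        = Matrix.scalar _ (n ^ r) := by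
      unfold PP
      rw [Finset.sum_eq_single 0]
      · simp [Matrix.smul_one_eq_diagonal]
      · intro i _ hi
        simp only [if_neg hi, zero_mul, zero_smul]
      · intro h; exact absurd (Finset.mem_univ _) h
    rw [h2] at h1
    have h3 : (Matrix.scalar (Fin pb.dim) (n ^ r)).det = (n ^ r) ^ pb.dim := by
      simp [Matrix.scalar_apply, Matrix.det_diagonal]
    rw [h3] at h1
    exact pow_ne_zero _ (pow_ne_zero _ hn0) h1.symm
  · intro L _ _ _ x c hx w hw hwx hwF p hp
    have hvn : w.valuation L (algebraMap (𝓞 K) L n) = 1 := by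
      have e : algebraMap (𝓞 K) L n = algebraMap (𝓞 L) L (y : 𝓞 L) := by
        rw [hn]; simp
      rw [e]
      apply (w.valuation_eq_one_iff_notMem (K := L)).2
      intro hmem
      apply hw
      rcases Int.natAbs_eq y with h | h
      · rw [h] at hmem
        simpa using hmem
      · rw [h] at hmem
        simpa using hmem
    have hvl : w.valuation L (algebraMap K L F.leadingCoeff⁻¹) ≤ 1 := by
      have e : algebraMap (𝓞 K) L u = algebraMap (𝓞 K) L n * algebraMap K L F.leadingCoeff⁻¹ := by
        rw [IsScalarTower.algebraMap_apply (𝓞 K) K L u, IsScalarTower.algebraMap_apply (𝓞 K) K L n,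
          ← map_mul]
        congr 1
        rw [hu, hn]
        change y • F.leadingCoeff⁻¹ = _
        rw [zsmul_eq_mul]
        simp
      have h1 := val_int (K := K) w u
      rw [e, map_mul, hvn, one_mul] at h1
      exact h1
    set R : Subring L := (w.valuation L).integer with hR
    set φ : 𝓞 K →+* R := (algebraMap (𝓞 K) L).codRestrict R (fun z => val_int w z) with hφ
    have hφv : ∀ z, ((φ z : R) : L) = algebraMap (𝓞 K) L z := fun z => rfl
    have hnx : algebraMap (𝓞 K) L n * x ∈ R := by
      change w.valuation L _ ≤ 1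
      rw [map_mul, hvn, one_mul]
      exact hwx
    set x' : R := ⟨algebraMap (𝓞 K) L n * x, hnx⟩ with hx'
    have hroot : ∑ i : Fin (r + 1), φ (c i) * φ n ^ (r - (i : ℕ)) * x' ^ (i : ℕ) = 0 := by
      apply Subtype.ext
      rw [AddSubmonoidClass.coe_finsetSum]
      push_cast
      change ∑ i : Fin (r + 1), algebraMap (𝓞 K) L (c i) * algebraMap (𝓞 K) L n ^ (r - (i : ℕ))
          * (algebraMap (𝓞 K) L n * x) ^ (i : ℕ) = 0
      have : ∀ i : Fin (r + 1), algebraMap (𝓞 K) L (c i) * algebraMap (𝓞 K) L n ^ (r - (i : ℕ))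
          * (algebraMap (𝓞 K) L n * x) ^ (i : ℕ)
          = algebraMap (𝓞 K) L n ^ r * (algebraMap K L (c i) * x ^ (i : ℕ)) := by
        intro i
        have h1 : algebraMap (𝓞 K) L n ^ r
            = algebraMap (𝓞 K) L n ^ (r - (i : ℕ)) * algebraMap (𝓞 K) L n ^ (i : ℕ) := by
          rw [← pow_add]
          congr 1
          have := i.2
          omega
        rw [h1, mul_pow, IsScalarTower.algebraMap_apply (𝓞 K) K L (c i)]
        ring
      simp_rw [this]
      rw [← Finset.mul_sum, hx, mul_zero]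
    obtain ⟨b, hb⟩ := PP_dvd (fun i => φ (c i)) (φ n) x' (φ.mapMatrix A') hroot
    rw [← det_PP_map, ← hev] at hb
    have hb' := congrArg (fun z : R => (z : L)) hb
    simp only [hφv, Subring.coe_mul] at hb'
    have hd : (((Matrix.scalar (Fin pb.dim) x' - φ.mapMatrix A').det : R) : L)
        = algebraMap (𝓞 K) L n ^ pb.dim * (algebraMap K L F.leadingCoeff⁻¹ * aeval x F) := by
      have e4 : ∀ q : K[X], (q.map (algebraMap K L)).eval x = aeval x q := fun q => by
        rw [eval_map_algebraMap]
      have e1 : (((Matrix.scalar (Fin pb.dim) x' - φ.mapMatrix A').det : R) : L)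
          = R.subtype (Matrix.scalar (Fin pb.dim) x' - φ.mapMatrix A').det := rfl
      have e2 : R.subtype.mapMatrix (Matrix.scalar (Fin pb.dim) x' - φ.mapMatrix A')
          = algebraMap (𝓞 K) L n • (Matrix.scalar (Fin pb.dim) x
            - (algebraMap K L).mapMatrix A) := by
        ext i j
        have e3 : algebraMap (𝓞 K) L (A' i j)
            = algebraMap (𝓞 K) L n * algebraMap K L (A i j) := by
          rw [IsScalarTower.algebraMap_apply (𝓞 K) K L (A' i j),
            IsScalarTower.algebraMap_apply (𝓞 K) K L n, ← map_mul]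
          congr 1
          rw [hA', hn]
          change y • A i j = _
          rw [zsmul_eq_mul]
          simp
        by_cases hij : i = j
        · subst hij
          simp [Matrix.scalar_apply, hφv, e3, hx']
          ring
        · simp [Matrix.scalar_apply, hφv, e3, hx', hij]
      rw [e1, RingHom.map_det, e2, Matrix.det_smul, Fintype.card_fin, ← Matrix.eval_charpoly]
      congr 1
      rw [RingHom.mapMatrix_apply, Matrix.charpoly_map, hchar, e4, map_mul, aeval_C, mul_comm]
    have hlt : w.valuation L (algebraMap (𝓞 K) L (MvPolynomial.eval c G)) < 1 := by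
      rw [hb', hd, map_mul, map_mul, map_mul, map_pow, hvn, one_pow, one_mul]
      have hbv : w.valuation L (b : L) ≤ 1 := b.2
      calc w.valuation L (algebraMap K L F.leadingCoeff⁻¹) * w.valuation L (aeval x F)
            * w.valuation L (b : L) ≤ 1 * w.valuation L (aeval x F) * 1 := by gcongr
        _ < 1 := by rwa [one_mul, mul_one]
    refine ⟨HeightOneSpectrum.under (𝓞 K) w, ?_, ?_⟩
    · change algebraMap (𝓞 K) (𝓞 L) (p : 𝓞 K) ∈ w.asIdeal
      rw [map_natCast]
      exact hp
    · change algebraMap (𝓞 K) (𝓞 L) (MvPolynomial.eval c G) ∈ w.asIdeal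
      rw [← w.valuation_lt_one_iff_mem (K := L)]
      change w.valuation L (algebraMap (𝓞 L) L (algebraMap (𝓞 K) (𝓞 L) _)) < 1
      rw [← IsScalarTower.algebraMap_apply (𝓞 K) (𝓞 L) L]
      exact hlt

end Pool.Agent.N79.PC
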